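import Mathlib
import Pool.Agent.Helper35.HSF.StD

set_option autoImplicit false

namespace Helper51.HSF

open Helper35.HSF Helper35.PI Helper35.PI2 Helper32.CL Helper35.MS
open scoped ContDiff Manifold Topology ENNReal BigOperators
open MeasureTheory Set Filter

private theorem posZS (hCPZ : StCPZ) (n : ℕ) (M : Type) [TopologicalSpace M] [T2Space M]
    [CompactSpace M] [ChartedSpace (EE n) M] [IsManifold (𝓡 n) ∞ M]
    (J : Set ℝ) (F ν : M → ℝ → EE (n + 2)) (hF : HFl n J F ν) (t₀ : ℝ) (ht₀ : t₀ ∈ J)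
    (hinj : Function.Injective (fun q => F q t₀)) (x : M)
    (hpos : ∀ z ∈ ZS n F ν x t₀, 0 < z) :
    ∃ q₀ : ℝ, 0 < q₀ ∧ ∀ z ∈ ZS n F ν x t₀, q₀ ≤ z := by
  have hJ : Icc t₀ t₀ ⊆ J := by
    intro t ht
    have : t = t₀ := le_antisymm ht.2 ht.1
    rw [this]; exact ht₀
  have hinj' : ∀ t ∈ Icc t₀ t₀, Function.Injective (fun q => F q t) := by
    intro t ht
    have : t = t₀ := le_antisymm ht.2 ht.1
    rw [this]; exact hinj
  have hK := hCPZ n M J F ν hF t₀ t₀ hJ hinj'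
  have hcl : IsClosed {p : (M × ℝ) × ℝ | p.1.1 = x} :=
    isClosed_eq (continuous_fst.comp continuous_fst) continuous_const
  have hK2 := hK.inter_right hcl
  have hK3 := hK2.image (continuous_snd : Continuous fun p : (M × ℝ) × ℝ => p.2)
  have himg : ZS n F ν x t₀ = (fun p : (M × ℝ) × ℝ => p.2) ''
      ({p : (M × ℝ) × ℝ | p.1.2 ∈ Icc t₀ t₀ ∧ p.2 ∈ ZS n F ν p.1.1 p.1.2} ∩
        {p : (M × ℝ) × ℝ | p.1.1 = x}) := by
    ext z
    constructor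
    · intro hz
      exact ⟨((x, t₀), z), ⟨⟨⟨le_refl _, le_refl _⟩, hz⟩, rfl⟩, rfl⟩
    · rintro ⟨⟨⟨y, t⟩, w⟩, ⟨⟨ht, hw⟩, hy⟩, rfl⟩
      have h1 : t = t₀ := le_antisymm ht.2 ht.1
      have h2 : y = x := hy
      subst h1 h2
      exact hw
  rw [← himg] at hK3
  rcases (ZS n F ν x t₀).eq_empty_or_nonempty with he | hne
  · refine ⟨1, one_pos, ?_⟩
    intro z hz
    rw [he] at hz
    exact absurd hz (Set.notMem_empty z)
  · obtain ⟨q₀, hq₀, hle⟩ := hK3.exists_isLeast hne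
    exact ⟨q₀, hpos q₀ hq₀, fun z hz => hle hz⟩

private theorem key (hCPZ : StCPZ) (hDIA : StDIA) (hFZP : StFZP) (hEVF : StEVF)
    (hHHY : StHHY) (hHTR : StHTR) (hSMF : StSMF)
    (n : ℕ) (hn : 1 ≤ n) (M : Type) [TopologicalSpace M] [T2Space M]
    [CompactSpace M] [ChartedSpace (EE n) M] [IsManifold (𝓡 n) ∞ M]
    (T : ℝ) (F ν : M → ℝ → EE (n + 2)) (hF : HFl n (Ioo 0 T) F ν) (hT : 2 * n * T = 1)
    (t₀ : ℝ) (ht₀ : t₀ ∈ Ioo 0 T) (hinj : Function.Injective (fun q => F q t₀)) (x : M) :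
    ∃ z ∈ ZS n F ν x t₀, z ≤ 0 := by
  by_contra hcon
  push Not at hcon
  obtain ⟨q₀, hq₀, hmin⟩ := posZS hCPZ n M (Ioo 0 T) F ν hF t₀ ht₀ hinj x hcon
  have hnR : (1 : ℝ) ≤ n := by exact_mod_cast hn
  have hr0 : 0 < rr n t₀ := hF.r0 t₀ ht₀
  obtain ⟨-, hdia⟩ := hDIA n M (Real.sqrt (rr n t₀)) t₀ F ν (hHHY n M (Ioo 0 T) F ν hF t₀ ht₀)
    x q₀ hq₀ (fun y hy => hmin _ (Or.inl ⟨y, hy, rfl⟩))
  set p : EE (n + 2) := F x t₀ + (1 / q₀) • ν x t₀ with hp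
  have hdia' : ∀ y, rr n t₀ ≤ (inner ℝ (F y t₀) p : ℝ) := by
    intro y
    have := hdia y
    rwa [Real.sq_sqrt hr0.le] at this
  have hImm : IsImmJ (n := n) (Ioo 0 T) F := hF.mcf.toIsImmJ
  have hTle : T ≤ 1 := by
    have h1 : 0 < T := lt_trans ht₀.1 ht₀.2
    nlinarith
  -- the function
  set r : ℝ := rr n t₀ with hr
  set v : M → ℝ → ℝ := fun q t => (inner ℝ (F q t) p : ℝ) with hv
  set a : ℝ → ℝ := fun t => r / 2 - r / 4 * (t - t₀) with ha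
  have hvS : SmJ n (Ioo 0 T) v := (hSMF n (n + 2) M (Ioo 0 T) F hImm).2.2.2.2.2.1 p
  have haC : ContDiffOn ℝ ∞ a (Ioo 0 T) := by
    apply ContDiff.contDiffOn
    rw [ha]
    fun_prop
  obtain ⟨-, -, -, htime⟩ := hHTR n (n + 2) M (Ioo 0 T) F hImm v v hvS hvS
  obtain ⟨haS, haD⟩ := htime a haC
  obtain ⟨-, hlin, -, -⟩ := hHTR n (n + 2) M (Ioo 0 T) F hImm (fun (_ : M) t => a t) v haS hvS
  obtain ⟨huS, huD⟩ := hlin 1 (-1)
  have hda : ∀ t, deriv a t = -(r / 4) := by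
    intro t
    have h1 : HasDerivAt a (0 - r / 4 * (1 - 0)) t := by
      rw [ha]
      exact (hasDerivAt_const t (r / 2)).sub
        (((hasDerivAt_id t).sub (hasDerivAt_const t t₀)).const_mul (r / 4))
    rw [h1.deriv]; ring
  have hmain : ∀ t₂ ∈ Ioo t₀ T, ∀ q : M, r / 4 < v q t₂ := by
    intro t₂ ht₂ q
    have hsub : Icc t₀ t₂ ⊆ Ioo 0 T := by
      intro t ht
      exact ⟨lt_of_lt_of_le ht₀.1 ht.1, lt_of_le_of_lt ht.2 ht₂.2⟩
    have hneg := hFZP n (n + 2) M (Ioo 0 T) F hF.mcf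
      (fun q t => 1 * a t + (-1) * v q t) t₀ t₂ huS hsub
      (by
        intro q'
        have h1 := hdia' q'
        have h2 : a t₀ = r / 2 := by simp [ha]
        show 1 * a t₀ + (-1) * v q' t₀ < 0
        have h3 : v q' t₀ = (inner ℝ (F q' t₀) p : ℝ) := rfl
        rw [h2, h3]
        linarith)
      (by
        intro q' t ht _ _ _
        have htJ : t ∈ Ioo 0 T := hsub ⟨ht.1.le, ht.2⟩
        obtain ⟨-, h1⟩ := huD q' t htJ
        rw [h1, (haD q' t htJ).2, hda t]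
        have h2 : htN n F v q' t = 0 :=
          (((hEVF n hn M (Ioo 0 T) F ν hF).2.2 q' t htJ).2.2.2.2.2.2 p).1
        rw [h2]
        linarith)
      q t₂ ⟨ht₂.1.le, le_refl _⟩
    have h1 : 1 * a t₂ + (-1) * v q t₂ < 0 := hneg
    have h2 : a t₂ = r / 2 - r / 4 * (t₂ - t₀) := rfl
    have h3 : t₂ - t₀ ≤ 1 := by
      have := ht₂.2
      have := ht₀.1
      linarith
    have h4 : r / 4 * (t₂ - t₀) ≤ r / 4 * 1 :=
      mul_le_mul_of_nonneg_left h3 (by linarith)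
    linarith
  -- near the final time
  set K : ℝ := 2 * n * (‖p‖ ^ 2 + 1) with hK
  have hKpos : 0 < K := by positivity
  set δ : ℝ := min ((T - t₀) / 2) ((r / 4) ^ 2 / K) with hδ
  have hδpos : 0 < δ := by
    apply lt_min
    · have := ht₀.2; linarith
    · positivity
  have hδ1 : δ ≤ (T - t₀) / 2 := min_le_left _ _
  have hδ2 : δ ≤ (r / 4) ^ 2 / K := min_le_right _ _
  have ht₂ : T - δ ∈ Ioo t₀ T := by
    have := ht₀.2
    constructor <;> linarith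
  have hbig := hmain (T - δ) ht₂ x
  have htJ : T - δ ∈ Ioo 0 T := ⟨lt_trans ht₀.1 ht₂.1, ht₂.2⟩
  have hsph := hF.sph x (T - δ) htJ
  have hrr : rr n (T - δ) = 2 * n * δ := by
    unfold rr
    have : 2 * (n : ℝ) * (T - δ) = 2 * n * T - 2 * n * δ := by ring
    rw [this, hT]; ring
  have hcs : v x (T - δ) ^ 2 ≤ ‖F x (T - δ)‖ ^ 2 * ‖p‖ ^ 2 := by
    have h1 := abs_real_inner_le_norm (F x (T - δ)) p
    have h2 : |v x (T - δ)| ≤ ‖F x (T - δ)‖ * ‖p‖ := h1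
    have h3 : |v x (T - δ)| ^ 2 ≤ (‖F x (T - δ)‖ * ‖p‖) ^ 2 :=
      pow_le_pow_left₀ (abs_nonneg _) h2 2
    rw [sq_abs, mul_pow] at h3
    exact h3
  rw [hsph, hrr] at hcs
  have h5 : 2 * (n : ℝ) * δ * ‖p‖ ^ 2 ≤ K * δ := by
    rw [hK]
    have : 0 ≤ 2 * (n : ℝ) * δ := by positivity
    nlinarith
  have h6 : K * δ ≤ (r / 4) ^ 2 := by
    have := mul_le_mul_of_nonneg_left hδ2 hKpos.le
    rwa [mul_div_cancel₀ _ hKpos.ne'] at this
  have h7 : (r / 4) ^ 2 < v x (T - δ) ^ 2 := by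
    have : 0 < r / 4 := by linarith
    exact pow_lt_pow_left₀ hbig this.le (by norm_num)
  linarith

/-- a flow which lives until the final time is never convex at a point -/
theorem hZRO (hCPZ : StCPZ) (hDIA : StDIA) (hFZP : StFZP) (hEVF : StEVF) (hNEG : StNEG)
    (hHHY : StHHY) (hHTR : StHTR) (hSMF : StSMF) : StZRO := by
  intro n hn M _ _ _ _ _ T F ν hF hT t₀ ht₀ hinj x
  refine ⟨key hCPZ hDIA hFZP hEVF hHHY hHTR hSMF n hn M T F ν hF hT t₀ ht₀ hinj x, ?_⟩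
  obtain ⟨h1, -, h3⟩ := hNEG n M F ν (fun q t => -ν q t) rfl
  obtain ⟨z, hz, hz0⟩ := key hCPZ hDIA hFZP hEVF hHHY hHTR hSMF n hn M T F _ (h1 _ hF) hT t₀ ht₀
    hinj x
  rw [(h3 x t₀).1] at hz
  obtain ⟨w, hw, rfl⟩ := hz
  refine ⟨w, hw, ?_⟩
  have : -w ≤ 0 := hz0
  linarith

end Helper51.HSF
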